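import Mathlib
import Pool.Agent.Run7.h104.Q2.Defs2

/-! MP_5bfbcb_an, Q2 (project of helper104), piece HEX: the auxiliary entire functions `h` and `r`. -/

set_option autoImplicit false
set_option linter.all false

namespace Pool.Agent.Run7.h834.Q2

open MeasureTheory AddCircle Complex Set Filter Topology Pool.Agent.W767.HL
open Pool.Agent.Run7.h104.Q2

noncomputable section

/-! ### The Poisson integral of continuous functions -/

lemma int_P {φ : Ci → ℝ} (hφ : Continuous φ) {z : ℂ} (hz : ‖z‖ < 1) :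
    Integrable (fun θ => P z θ * φ θ) mu := by
  have h := integrable_P_mul hz (integrable_of_cont hφ)
  simpa only [smul_eq_mul] using h

lemma PI_mono {φ ψ : Ci → ℝ} (hφ : Continuous φ) (hψ : Continuous ψ) (h : ∀ θ, φ θ ≤ ψ θ) {z : ℂ}
    (hz : ‖z‖ < 1) : PI φ z ≤ PI ψ z := by
  unfold PI
  apply integral_mono (int_P hφ hz) (int_P hψ hz)
  intro θ
  exact mul_le_mul_of_nonneg_left (h θ) (P_pos hz θ).le

lemma PI_nonneg {φ : Ci → ℝ} (h : ∀ θ, 0 ≤ φ θ) {z : ℂ} (hz : ‖z‖ < 1) : 0 ≤ PI φ z := by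
  unfold PI
  apply integral_nonneg
  intro θ
  exact mul_nonneg (P_pos hz θ).le (h θ)

lemma PI_add {φ ψ : Ci → ℝ} (hφ : Continuous φ) (hψ : Continuous ψ) {z : ℂ} (hz : ‖z‖ < 1) :
    PI (fun θ => φ θ + ψ θ) z = PI φ z + PI ψ z := by
  unfold PI
  rw [← integral_add (int_P hφ hz) (int_P hψ hz)]
  congr 1
  ext θ
  ring

lemma PI_cmul (c : ℝ) (φ : Ci → ℝ) (z : ℂ) : PI (fun θ => c * φ θ) z = c * PI φ z := by
  unfold PI
  rw [← integral_const_mul]
  congr 1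
  ext θ
  ring

lemma PI_const (c : ℝ) {z : ℂ} (hz : ‖z‖ < 1) : PI (fun _ => c) z = c := by
  unfold PI
  rw [integral_mul_const, integral_P hz, one_mul]

lemma PI_sum {ι : Type} (s : Finset ι) (φ : ι → Ci → ℝ) (hφ : ∀ i, Continuous (φ i)) {z : ℂ} (hz : ‖z‖ < 1) :
    PI (fun θ => ∑ i ∈ s, φ i θ) z = ∑ i ∈ s, PI (φ i) z := by
  unfold PI
  rw [← integral_finset_sum _ (fun i _ => int_P (hφ i) hz)]
  congr 1
  ext θ
  rw [Finset.mul_sum]

lemma PI_sq {φ : Ci → ℝ} (hφ : Continuous φ) {z : ℂ} (hz : ‖z‖ < 1) :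
    PI φ z ^ 2 ≤ PI (fun θ => φ θ ^ 2) z := by
  obtain ⟨m, hm⟩ : ∃ m, m = PI φ z := ⟨_, rfl⟩
  have h1 : 0 ≤ PI (fun θ => (φ θ ^ 2 + (-(2 * m)) * φ θ) + m ^ 2) z := by
    apply PI_nonneg _ hz
    intro θ
    have : (φ θ ^ 2 + (-(2 * m)) * φ θ) + m ^ 2 = (φ θ - m) ^ 2 := by ring
    rw [this]
    positivity
  have c1 : Continuous fun θ => φ θ ^ 2 := hφ.pow 2
  have c2 : Continuous fun θ => (-(2 * m)) * φ θ := continuous_const.mul hφ
  have c12 : Continuous fun θ => φ θ ^ 2 + (-(2 * m)) * φ θ := c1.add c2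
  have e1 := PI_add (φ := fun θ => φ θ ^ 2 + (-(2 * m)) * φ θ) (ψ := fun _ => m ^ 2) c12 continuous_const hz
  have e2 := PI_add (φ := fun θ => φ θ ^ 2) (ψ := fun θ => (-(2 * m)) * φ θ) c1 c2 hz
  rw [e1, e2, PI_cmul, PI_const _ hz, ← hm] at h1
  rw [← hm]
  linarith

lemma PI_re {f : ℂ → ℂ} (hf : Differentiable ℂ f) {z : ℂ} (hz : ‖z‖ < 1) :
    PI (fun θ => (f (ze θ)).re) z = (f z).re := poisson_re hf hz

/-- from the disc to the closed disc -/
lemma closed_disc {u : ℂ → ℝ} (hu : Continuous u) (h : ∀ z : ℂ, ‖z‖ < 1 → 0 ≤ u z) :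
    ∀ z : ℂ, ‖z‖ ≤ 1 → 0 ≤ u z := by
  intro z hz
  have h1 : closure (Metric.ball (0 : ℂ) 1) ⊆ {z | 0 ≤ u z} := by
    apply closure_minimal
    · intro w hw
      apply h
      simpa using hw
    · exact isClosed_le continuous_const hu
  rw [closure_ball (0 : ℂ) one_ne_zero] at h1
  apply h1
  simpa using hz

/-- approximation from above in the disc -/
lemma sandwich (hA : S_APX) {φ : Ci → ℝ} (hφ : Continuous φ) (h0 : ∀ θ, 0 ≤ φ θ) {ε : ℝ} (hε : 0 < ε) :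
    ∃ H : ℂ → ℂ, Differentiable ℂ H ∧ (∀ z : ℂ, ‖z‖ ≤ 1 → 0 ≤ (H z).re) ∧
      ∀ z : ℂ, ‖z‖ < 1 → PI φ z ≤ (H z).re ∧ (H z).re ≤ PI φ z + ε := by
  obtain ⟨H, hH, hb⟩ := hA (fun θ => φ θ + ε) (hφ.add continuous_const) ε hε
  have hc : Continuous fun θ => (H (ze θ)).re :=
    Complex.continuous_re.comp (hH.continuous.comp continuous_ze)
  have hlow : ∀ z : ℂ, ‖z‖ < 1 → PI φ z ≤ (H z).re := by
    intro z hz
    rw [← PI_re hH hz]
    apply PI_mono hφ hc _ hz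
    intro θ
    have := (hb θ).1
    linarith
  refine ⟨H, hH, ?_, fun z hz => ⟨hlow z hz, ?_⟩⟩
  · apply closed_disc (Complex.continuous_re.comp hH.continuous)
    intro z hz
    exact (PI_nonneg h0 hz).trans (hlow z hz)
  · rw [← PI_re hH hz]
    have cc : Continuous fun θ => φ θ + ε := hφ.add continuous_const
    have h1 := PI_mono (φ := fun θ => (H (ze θ)).re) (ψ := fun θ => φ θ + ε) hc cc (fun θ => (hb θ).2) hz
    have e1 := PI_add (φ := φ) (ψ := fun _ => ε) hφ continuous_const hz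
    rw [e1, PI_const _ hz] at h1
    exact h1

lemma sum_exp {c : ℝ} (hc0 : 0 ≤ c) (hc : Real.exp (-c) ≤ 1 / 2) (k N : ℕ) :
    ∑ j ∈ Finset.Icc k N, Real.exp (-(c * 2 ^ j)) ≤ 2 * Real.exp (-c) := by
  have h1 : ∀ j ∈ Finset.Icc k N, Real.exp (-(c * 2 ^ j)) ≤ Real.exp (-c) * (1 / 2 : ℝ) ^ j := by
    intro j _
    have h2 : ((j : ℝ) + 1) ≤ 2 ^ j := by
      have : j + 1 ≤ 2 ^ j := Nat.lt_two_pow_self
      exact_mod_cast this
    calc Real.exp (-(c * 2 ^ j)) ≤ Real.exp (-c + (j : ℝ) * (-c)) := by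
          apply Real.exp_le_exp.mpr
          nlinarith
      _ = Real.exp (-c) * (Real.exp (-c)) ^ j := by
          rw [Real.exp_add, Real.exp_nat_mul]
      _ ≤ Real.exp (-c) * (1 / 2 : ℝ) ^ j := by
          gcongr
  calc ∑ j ∈ Finset.Icc k N, Real.exp (-(c * 2 ^ j))
      ≤ ∑ j ∈ Finset.Icc k N, Real.exp (-c) * (1 / 2 : ℝ) ^ j := Finset.sum_le_sum h1
    _ = Real.exp (-c) * ∑ j ∈ Finset.Icc k N, (1 / 2 : ℝ) ^ j := by rw [Finset.mul_sum]
    _ ≤ Real.exp (-c) * 2 := by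
        apply mul_le_mul_of_nonneg_left _ (Real.exp_pos _).le
        calc ∑ j ∈ Finset.Icc k N, (1 / 2 : ℝ) ^ j ≤ ∑ j ∈ Finset.range (N + 1), (1 / 2 : ℝ) ^ j := by
              apply Finset.sum_le_sum_of_subset_of_nonneg
              · intro j hj
                rw [Finset.mem_Icc] at hj
                rw [Finset.mem_range]
                omega
              · intro _ _ _; positivity
          _ ≤ 2 := sum_geometric_two_le _
    _ = 2 * Real.exp (-c) := by ring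

lemma ev_contAt (f : ℤ →₀ ℂ) {z : ℂ} (hz : z ≠ 0) : ContinuousAt (fun w => ev f w) z := by
  simp only [ev_eq_sum, Finsupp.sum]
  apply tendsto_finsetSum
  intro n _
  exact (continuousAt_const.mul (continuousAt_zpow₀ z n (Or.inl hz)))

theorem t_HEX (hA : S_APX) : S_HEX := by
  refine ⟨100, ?_⟩
  intro κ1 κ7 A0 c0 D0 N G f ell hκ1 hκ1' hκ7 hD S k hk
  -- continuity
  have cG : Continuous fun θ => ‖ev G (ze θ)‖ := (continuous_ev_ze G).norm
  have ct : ∀ j, Continuous fun θ => ‖ev (G - f j) (ze θ)‖ := fun j => (continuous_ev_ze _).norm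
  have ct2 : ∀ j, Continuous fun θ => Real.exp (2 ^ j * D0) * ‖ev (G - f j) (ze θ)‖ ^ 2 := fun j =>
    continuous_const.mul ((ct j).pow 2)
  have cφ : Continuous fun θ => Real.exp (-(D0 / 3)) *
      (‖ev G (ze θ)‖ + ∑ j ∈ Finset.Icc k N, ‖ev (G - f j) (ze θ)‖) :=
    continuous_const.mul (cG.add (continuous_finsetSum _ fun j _ => ct j))
  have cψ : Continuous fun θ => ∑ j ∈ Finset.Icc k N, Real.exp (2 ^ j * D0) * ‖ev (G - f j) (ze θ)‖ ^ 2 :=
    continuous_finsetSum _ fun j _ => ct2 j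
  obtain ⟨h, hh, hh0, hhb⟩ := sandwich hA cφ (fun θ => by positivity) (Real.exp_pos (-(D0 / 2)))
  obtain ⟨r, hr, hr0, hrb⟩ := sandwich hA cψ (fun θ => by positivity) (Real.exp_pos (-(D0 / 2)))
  -- the Poisson integrals
  have pφ : ∀ z : ℂ, ‖z‖ < 1 → PI (fun θ => Real.exp (-(D0 / 3)) *
      (‖ev G (ze θ)‖ + ∑ j ∈ Finset.Icc k N, ‖ev (G - f j) (ze θ)‖)) z =
      Real.exp (-(D0 / 3)) * (PI (fun θ => ‖ev G (ze θ)‖) z +
        ∑ j ∈ Finset.Icc k N, PI (fun θ => ‖ev (G - f j) (ze θ)‖) z) := by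
    intro z hz
    rw [PI_cmul, PI_add cG (continuous_finsetSum _ fun j _ => ct j) hz,
      PI_sum _ (fun j θ => ‖ev (G - f j) (ze θ)‖) ct hz]
  have pψ : ∀ z : ℂ, ‖z‖ < 1 → PI (fun θ => ∑ j ∈ Finset.Icc k N,
      Real.exp (2 ^ j * D0) * ‖ev (G - f j) (ze θ)‖ ^ 2) z =
      ∑ j ∈ Finset.Icc k N, Real.exp (2 ^ j * D0) * PI (fun θ => ‖ev (G - f j) (ze θ)‖ ^ 2) z := by
    intro z hz
    rw [PI_sum _ (fun j θ => Real.exp (2 ^ j * D0) * ‖ev (G - f j) (ze θ)‖ ^ 2) ct2 hz]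
    apply Finset.sum_congr rfl
    intro j _
    rw [PI_cmul]
  have nG : ∀ z : ℂ, ‖z‖ < 1 → 0 ≤ PI (fun θ => ‖ev G (ze θ)‖) z := fun z hz =>
    PI_nonneg (fun θ => norm_nonneg _) hz
  have nt : ∀ j, ∀ z : ℂ, ‖z‖ < 1 → 0 ≤ PI (fun θ => ‖ev (G - f j) (ze θ)‖) z := fun j z hz =>
    PI_nonneg (fun θ => norm_nonneg _) hz
  have nt2 : ∀ j, ∀ z : ℂ, ‖z‖ < 1 → 0 ≤ PI (fun θ => ‖ev (G - f j) (ze θ)‖ ^ 2) z := fun j z hz =>
    PI_nonneg (fun θ => by positivity) hz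
  have hD0 : 0 < D0 := by linarith
  -- `pos` in the open disc
  have pos' : ∀ i, k ≤ i → i ≤ N → ∀ z : ℂ, z ≠ 0 → ‖z‖ < 1 → dep z ≤ κ1 * ell i →
      ‖ev (f i) z‖ ≤ Real.exp (D0 / 3 + (h z).re) := by
    intro i hki hiN z hz0 hz hdep
    have h1 := S.nice i hiN z hz0 hz hdep
    have h2 := (hhb z hz).1
    rw [pφ z hz] at h2
    have h3 : PI (fun θ => ‖ev (G - f i) (ze θ)‖) z ≤
        ∑ j ∈ Finset.Icc k N, PI (fun θ => ‖ev (G - f j) (ze θ)‖) z :=
      Finset.single_le_sum (f := fun j => PI (fun θ => ‖ev (G - f j) (ze θ)‖) z)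
        (fun j _ => nt j z hz) (Finset.mem_Icc.mpr ⟨hki, hiN⟩)
    have h4 : PI (fun θ => ‖ev G (ze θ)‖) z + PI (fun θ => ‖ev (G - f i) (ze θ)‖) z ≤
        Real.exp (D0 / 3) * (h z).re := by
      calc PI (fun θ => ‖ev G (ze θ)‖) z + PI (fun θ => ‖ev (G - f i) (ze θ)‖) z
          ≤ PI (fun θ => ‖ev G (ze θ)‖) z + ∑ j ∈ Finset.Icc k N, PI (fun θ => ‖ev (G - f j) (ze θ)‖) z := by
            linarith
        _ = Real.exp (D0 / 3) * (Real.exp (-(D0 / 3)) * (PI (fun θ => ‖ev G (ze θ)‖) z +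
              ∑ j ∈ Finset.Icc k N, PI (fun θ => ‖ev (G - f j) (ze θ)‖) z)) := by
            rw [← mul_assoc, ← Real.exp_add]
            simp
        _ ≤ Real.exp (D0 / 3) * (h z).re := by
            apply mul_le_mul_of_nonneg_left h2 (Real.exp_pos _).le
    have h5 : (h z).re + 1 ≤ Real.exp (h z).re := Real.add_one_le_exp _
    calc ‖ev (f i) z‖ ≤ Real.exp (D0 / 3) * (h z).re + Real.exp (D0 / 3) := by linarith
      _ = Real.exp (D0 / 3) * ((h z).re + 1) := by ring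
      _ ≤ Real.exp (D0 / 3) * Real.exp (h z).re := by
          apply mul_le_mul_of_nonneg_left h5 (Real.exp_pos _).le
      _ = Real.exp (D0 / 3 + (h z).re) := (Real.exp_add _ _).symm
  refine ⟨h, r, hh, hr, hh0, hr0, ?_, ?_, ?_, ?_⟩
  · -- pos
    intro i hki hiN z hz0 hz hdep
    rcases lt_or_eq_of_le hz with hz1 | hz1
    · exact pos' i hki hiN z hz0 hz1 hdep
    · have hpos : 0 < κ1 * ell i := mul_pos hκ1 (S.ell_pos i)
      have t1 : Tendsto (fun ρ : ℝ => ((ρ : ℂ) * z)) (𝓝[<] 1) (𝓝 z) := by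
        have : Tendsto (fun ρ : ℝ => ((ρ : ℂ) * z)) (𝓝 1) (𝓝 (((1 : ℝ) : ℂ) * z)) :=
          (Continuous.tendsto (by fun_prop) 1)
        rw [Complex.ofReal_one, one_mul] at this
        exact this.mono_left nhdsWithin_le_nhds
      have t2 : Tendsto (fun ρ : ℝ => ‖ev (f i) ((ρ : ℂ) * z)‖) (𝓝[<] 1) (𝓝 ‖ev (f i) z‖) :=
        ((ev_contAt (f i) hz0).tendsto.comp t1).norm
      have t3 : Tendsto (fun ρ : ℝ => Real.exp (D0 / 3 + (h ((ρ : ℂ) * z)).re)) (𝓝[<] 1)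
          (𝓝 (Real.exp (D0 / 3 + (h z).re))) := by
        have c3 : Continuous fun w : ℂ => Real.exp (D0 / 3 + (h w).re) := by
          have := hh.continuous
          fun_prop
        exact (c3.tendsto z).comp t1
      apply le_of_tendsto_of_tendsto t2 t3
      have l1 : Tendsto (fun ρ : ℝ => -Real.log ρ) (𝓝[<] 1) (𝓝 0) := by
        have : Tendsto (fun ρ : ℝ => -Real.log ρ) (𝓝 1) (𝓝 (-Real.log 1)) :=
          (Real.continuousAt_log one_ne_zero).tendsto.neg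
        rw [Real.log_one, neg_zero] at this
        exact this.mono_left nhdsWithin_le_nhds
      have l2 : ∀ᶠ ρ : ℝ in 𝓝[<] 1, -Real.log ρ < κ1 * ell i := l1.eventually_lt_const hpos
      have l3 : ∀ᶠ ρ : ℝ in 𝓝[<] 1, 0 < ρ :=
        (eventually_gt_nhds (zero_lt_one)).filter_mono nhdsWithin_le_nhds
      filter_upwards [l2, l3, self_mem_nhdsWithin] with ρ h2 h3 h4
      have h5 : ρ < 1 := h4
      have hn : ‖(ρ : ℂ) * z‖ = ρ := by
        rw [norm_mul, hz1, mul_one, Complex.norm_real, Real.norm_of_nonneg h3.le]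
      apply pos' i hki hiN
      · exact mul_ne_zero (by exact_mod_cast h3.ne') hz0
      · rw [hn]; exact h5
      · unfold dep
        rw [hn]
        exact h2.le
  · -- mis
    intro i hki hiN z hz0 hz hdep hrz
    have h1 := S.mism i hiN z hz0 hz hdep
    have h2 := (hrb z hz).1
    rw [pψ z hz] at h2
    have key : ∀ j, i ≤ j → j ≤ N → PI (fun θ => ‖ev (G - f j) (ze θ)‖) z ≤ Real.exp (-(2 ^ i * D0 / 3)) := by
      intro j hij hjN
      have h3 : Real.exp (2 ^ j * D0) * PI (fun θ => ‖ev (G - f j) (ze θ)‖ ^ 2) z ≤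
          ∑ j ∈ Finset.Icc k N, Real.exp (2 ^ j * D0) * PI (fun θ => ‖ev (G - f j) (ze θ)‖ ^ 2) z :=
        Finset.single_le_sum (f := fun j => Real.exp (2 ^ j * D0) * PI (fun θ => ‖ev (G - f j) (ze θ)‖ ^ 2) z)
          (fun j _ => mul_nonneg (Real.exp_pos _).le (nt2 j z hz)) (Finset.mem_Icc.mpr ⟨by omega, hjN⟩)
      have h4 : PI (fun θ => ‖ev (G - f j) (ze θ)‖) z ^ 2 ≤ PI (fun θ => ‖ev (G - f j) (ze θ)‖ ^ 2) z :=
        PI_sq (ct j) hz
      have h5 : Real.exp (2 ^ j * D0) * PI (fun θ => ‖ev (G - f j) (ze θ)‖) z ^ 2 < 1 := by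
        calc Real.exp (2 ^ j * D0) * PI (fun θ => ‖ev (G - f j) (ze θ)‖) z ^ 2
            ≤ Real.exp (2 ^ j * D0) * PI (fun θ => ‖ev (G - f j) (ze θ)‖ ^ 2) z := by
              apply mul_le_mul_of_nonneg_left h4 (Real.exp_pos _).le
          _ ≤ (r z).re := h3.trans h2
          _ < 1 := hrz
      have h6 : PI (fun θ => ‖ev (G - f j) (ze θ)‖) z ^ 2 < Real.exp (-(2 ^ j * D0 / 2)) ^ 2 := by
        have e1 : Real.exp (2 ^ j * D0) * Real.exp (-(2 ^ j * D0 / 2)) ^ 2 = 1 := by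
          rw [← Real.exp_nat_mul, ← Real.exp_add]
          have : 2 ^ j * D0 + ((2 : ℕ) : ℝ) * (-(2 ^ j * D0 / 2)) = 0 := by
            push_cast
            ring
          rw [this, Real.exp_zero]
        rw [← e1] at h5
        exact lt_of_mul_lt_mul_left h5 (Real.exp_pos _).le
      have h7 : PI (fun θ => ‖ev (G - f j) (ze θ)‖) z < Real.exp (-(2 ^ j * D0 / 2)) :=
        lt_of_pow_lt_pow_left₀ 2 (Real.exp_pos _).le h6
      refine h7.le.trans ?_
      apply Real.exp_le_exp.mpr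
      have h8 : (2 : ℝ) ^ i ≤ 2 ^ j := pow_le_pow_right₀ (by norm_num) hij
      have h9 : (2 : ℝ) ^ i * D0 ≤ 2 ^ j * D0 := by gcongr
      have h10 : 0 ≤ (2 : ℝ) ^ i * D0 := by positivity
      linarith
    have k1 := key i le_rfl hiN.le
    have k2 := key (i + 1) (by omega) (by omega)
    linarith
  · -- hsmall
    intro w hw0 hw hdep hG
    have h2 := (hhb w hw).2
    rw [pφ w hw] at h2
    have e34 : Real.exp (-(3 / 4 * D0)) ≤ 1 / 2 := by
      have h3 := Real.add_one_le_exp (3 / 4 * D0)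
      rw [Real.exp_neg]
      have h4 : (2 : ℝ) ≤ Real.exp (3 / 4 * D0) := by linarith
      rw [one_div]
      exact inv_anti₀ (by norm_num) h4
    have hs : ∑ j ∈ Finset.Icc k N, PI (fun θ => ‖ev (G - f j) (ze θ)‖) w ≤ 2 * Real.exp (-(3 / 4 * D0)) := by
      refine le_trans (Finset.sum_le_sum ?_) (sum_exp (by positivity) e34 k N)
      intro j hj
      rw [Finset.mem_Icc] at hj
      have h3 : PI (fun θ => ‖ev (G - f j) (ze θ)‖ ^ 2) w ≤ Real.exp (-(3 / 2 * (2 ^ j * D0))) := by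
        apply S.tail j hj.2 w hw0 hw
        refine le_trans ?_ hdep
        apply mul_le_mul_of_nonneg_left (S.ell_anti hj.1) hκ7.le
      have h4 := PI_sq (ct j) hw
      have e1 : Real.exp (-(3 / 4 * D0 * 2 ^ j)) ^ 2 = Real.exp (-(3 / 2 * (2 ^ j * D0))) := by
        rw [← Real.exp_nat_mul]
        congr 1
        push_cast
        ring
      have h5 : PI (fun θ => ‖ev (G - f j) (ze θ)‖) w ^ 2 ≤ Real.exp (-(3 / 4 * D0 * 2 ^ j)) ^ 2 := by
        rw [e1]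
        exact h4.trans h3
      exact le_of_pow_le_pow_left₀ two_ne_zero (Real.exp_pos _).le h5
    have hfin : Real.exp (-(D0 / 3)) * (Real.exp (D0 / 8) + 2 * Real.exp (-(3 / 4 * D0))) + Real.exp (-(D0 / 2)) ≤
        Real.exp (-(D0 / 8)) := by
      have a1 : Real.exp (-(D0 / 3)) * Real.exp (D0 / 8) = Real.exp (-(D0 / 8)) * Real.exp (-(D0 / 12)) := by
        rw [← Real.exp_add, ← Real.exp_add]; congr 1; ring
      have a2 : Real.exp (-(D0 / 3)) * Real.exp (-(3 / 4 * D0)) ≤ Real.exp (-(D0 / 8)) * Real.exp (-(D0 / 12)) := by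
        rw [← Real.exp_add, ← Real.exp_add]
        apply Real.exp_le_exp.mpr
        linarith
      have a3 : Real.exp (-(D0 / 2)) ≤ Real.exp (-(D0 / 8)) * Real.exp (-(D0 / 12)) := by
        rw [← Real.exp_add]
        apply Real.exp_le_exp.mpr
        linarith
      have a4 : 4 * Real.exp (-(D0 / 12)) ≤ 1 := by
        have h3 := Real.add_one_le_exp (D0 / 12)
        rw [Real.exp_neg, ← div_eq_mul_inv, div_le_one (Real.exp_pos _)]
        linarith
      have a5 : 0 < Real.exp (-(D0 / 8)) := Real.exp_pos _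
      have a6 : Real.exp (-(D0 / 8)) * (4 * Real.exp (-(D0 / 12))) ≤ Real.exp (-(D0 / 8)) * 1 :=
        mul_le_mul_of_nonneg_left a4 a5.le
      linarith
    refine h2.trans (le_trans ?_ hfin)
    have : PI (fun θ => ‖ev G (ze θ)‖) w + ∑ j ∈ Finset.Icc k N, PI (fun θ => ‖ev (G - f j) (ze θ)‖) w ≤
        Real.exp (D0 / 8) + 2 * Real.exp (-(3 / 4 * D0)) := add_le_add hG hs
    have h9 := mul_le_mul_of_nonneg_left this (Real.exp_pos (-(D0 / 3))).le
    linarith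
  · -- rsmall
    intro w hw0 hw hdep
    have h2 := (hrb w hw).2
    rw [pψ w hw] at h2
    have e12 : Real.exp (-(1 / 2 * D0)) ≤ 1 / 2 := by
      have h3 := Real.add_one_le_exp (1 / 2 * D0)
      have h4 : (2 : ℝ) ≤ Real.exp (1 / 2 * D0) := by linarith
      calc Real.exp (-(1 / 2 * D0)) = (Real.exp (1 / 2 * D0))⁻¹ := Real.exp_neg _
        _ ≤ (2 : ℝ)⁻¹ := inv_anti₀ (by norm_num) h4
        _ = 1 / 2 := by norm_num
    have hs : ∑ j ∈ Finset.Icc k N, Real.exp (2 ^ j * D0) * PI (fun θ => ‖ev (G - f j) (ze θ)‖ ^ 2) w ≤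
        2 * Real.exp (-(1 / 2 * D0)) := by
      refine le_trans (Finset.sum_le_sum ?_) (sum_exp (by positivity) e12 k N)
      intro j hj
      rw [Finset.mem_Icc] at hj
      have h3 : PI (fun θ => ‖ev (G - f j) (ze θ)‖ ^ 2) w ≤ Real.exp (-(3 / 2 * (2 ^ j * D0))) := by
        apply S.tail j hj.2 w hw0 hw
        refine le_trans ?_ hdep
        apply mul_le_mul_of_nonneg_left (S.ell_anti hj.1) hκ7.le
      calc Real.exp (2 ^ j * D0) * PI (fun θ => ‖ev (G - f j) (ze θ)‖ ^ 2) w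
          ≤ Real.exp (2 ^ j * D0) * Real.exp (-(3 / 2 * (2 ^ j * D0))) :=
            mul_le_mul_of_nonneg_left h3 (Real.exp_pos _).le
        _ = Real.exp (-(1 / 2 * D0 * 2 ^ j)) := by
            rw [← Real.exp_add]; congr 1; ring
    have b1 : Real.exp (-(1 / 2 * D0)) = Real.exp (-(D0 / 2)) := by congr 1; ring
    have b2 : Real.exp (-(D0 / 2)) = Real.exp (-(D0 / 4)) * Real.exp (-(D0 / 4)) := by
      rw [← Real.exp_add]; congr 1; ring
    have a4 : 3 * Real.exp (-(D0 / 4)) ≤ 1 := by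
      have h3 := Real.add_one_le_exp (D0 / 4)
      rw [Real.exp_neg, ← div_eq_mul_inv, div_le_one (Real.exp_pos _)]
      linarith
    have a5 : 0 < Real.exp (-(D0 / 4)) := Real.exp_pos _
    have a6 : Real.exp (-(D0 / 4)) * (3 * Real.exp (-(D0 / 4))) ≤ Real.exp (-(D0 / 4)) * 1 :=
      mul_le_mul_of_nonneg_left a4 a5.le
    rw [b1, b2] at hs
    rw [b2] at h2
    linarith

end

end Pool.Agent.Run7.h834.Q2
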